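import Mathlib
import Pool.Agent.Lib.helper1.Subtree

namespace Pool.Agent.H.MP_589357_co
open Finset Pool.Agent.Lib.helper1.Subtree

variable {V : Type} [DecidableEq V]

lemma Z_add (E : Finset (Sym2 V)) (A : Finset V) (p q p' q' : ℕ) :
    Z E A (p + p') (q + q') = Z E A p q + Z E A p' q' := by
  unfold Z
  rw [← sum_add_distrib]
  refine sum_congr rfl fun F _ => ?_
  split_ifs <;> ring

lemma Z_congr {E : Finset (Sym2 V)} {A B : Finset V} (h : ∀ x ∈ supp E, x ∈ A ↔ x ∈ B)
    (p q : ℕ) : Z E A p q = Z E B p q := by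
  have key : ∀ A B : Finset V, (∀ x ∈ supp E, x ∈ A ↔ x ∈ B) → ∀ F ⊆ E, Good A F → Good B F := by
    intro A B h F hF ⟨h1, h2⟩
    refine ⟨fun x hx => ?_, ?_⟩
    · obtain ⟨a, ha, r⟩ := h1 x hx
      refine ⟨a, (h a (supp_mono hF ?_)).1 ha, r⟩
      rcases r.start_mem with e | e
      · exact e ▸ hx
      · exact e
    · have e : supp F \ A = supp F \ B := by
        ext x
        simp only [mem_sdiff]
        exact and_congr_right fun hx => not_congr (h x (supp_mono hF hx))
      have a1 := card_sdiff_add_card (supp F) A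
      have a2 := card_sdiff_add_card (supp F) B
      rw [union_comm] at a1 a2
      rw [e] at a1
      omega
  unfold Z
  refine sum_congr rfl fun F hF => ?_
  have hF' := mem_powerset.1 hF
  by_cases c : Good A F
  · rw [if_pos c, if_pos (key A B h F hF' c)]
  · rw [if_neg c, if_neg (fun c' => c (key B A (fun x hx => (h x hx).symm) F hF' c'))]

lemma Z_drop {a b : V} (q : ℕ) : ∀ (n : ℕ) (E : Finset (Sym2 V)) (A : Finset V) (p : ℕ),
    E.card = n → a ∈ A → b ∈ A → s(a, b) ∉ E → Z (insert s(a, b) E) A p q = Z E A p q := by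
  intro n
  induction n using Nat.strong_induction_on with
  | _ n ih =>
    intro E A p hn ha hb he
    by_cases c : ∀ x y, s(x, y) ∈ E → x ∈ A → y ∈ A
    · rw [Z_base c, Z_base]
      intro x y h hx
      rcases mem_insert.1 h with h | h
      · rcases Sym2.eq_iff.1 h with ⟨_, rfl⟩ | ⟨_, rfl⟩ <;> assumption
      · exact c x y h hx
    · push Not at c
      obtain ⟨x, y, h1, h2, h3⟩ := c
      have e : E = insert s(x, y) (E.erase s(x, y)) := (insert_erase h1).symm
      have hc : (E.erase s(x, y)).card < n := hn ▸ card_erase_lt_of_mem h1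
      have he' : s(a, b) ∉ E.erase s(x, y) := fun h => he (mem_of_mem_erase h)
      have ne : s(x, y) ≠ s(a, b) := fun h => he (h ▸ h1)
      rw [e, insert_comm, Z_branch h2 h3 (by simp [ne]), Z_branch h2 h3 (by simp),
        ih _ hc _ _ _ rfl ha hb he',
        ih _ hc _ _ _ rfl (mem_insert_of_mem ha) (mem_insert_of_mem hb) he']

lemma not_mem_of_supp {E : Finset (Sym2 V)} {a b : V} (h : b ∉ supp E) : s(a, b) ∉ E :=
  fun h' => h (mem_supp.2 ⟨_, h', by simp⟩)

lemma Z_tri {E : Finset (Sym2 V)} {A : Finset V} {a b t : V} (ha : a ∈ A) (hb : b ∉ A)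
    (ht : t ∉ A) (hbt : b ≠ t) (hE : t ∉ supp E) (he : s(a, b) ∉ E) (p q : ℕ) :
    Z (insert s(a, b) (insert s(a, t) (insert s(b, t) E))) A p q =
      Z E A (p + q) q + Z (insert s(b, t) E) A p q + Z E (insert b A) (4 * p + 7 * q) (4 * q) := by
  have ab : a ≠ b := fun h => hb (h ▸ ha)
  have at' : a ≠ t := fun h => ht (h ▸ ha)
  have n1 : s(a, t) ∉ E := not_mem_of_supp hE
  have n2 : s(b, t) ∉ E := not_mem_of_supp hE
  have n3 : s(a, t) ∉ insert s(b, t) E := by simp [n1, ab, at']
  have n4 : s(a, b) ∉ insert s(a, t) (insert s(b, t) E) := by simp [he, ab, at', hbt]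
  have ht' : t ∉ insert b A := by simp [ht, hbt.symm]
  rw [Z_branch ha hb n4, Z_branch ha ht n3, Z_branch (mem_insert_of_mem ha) ht' n3,
    Z_leaf (mem_insert_self b A) ht' hE,
    Z_drop q _ E _ _ rfl (mem_insert_of_mem (mem_insert_self b A)) (mem_insert_self t _) n2]
  have s1 : Z (insert s(b, t) E) (insert t A) (p + q) q =
      Z E A (p + q) q + Z E (insert b A) (p + q + q) q := by
    rw [Sym2.eq_swap, Z_branch (mem_insert_self t A) (by simp [hb, hbt]) (by
      rw [Sym2.eq_swap]; exact n2)]
    congr 1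
    · exact Z_congr (fun x hx => by
        have : x ≠ t := fun h => hE (h ▸ hx)
        simp [this]) _ _
    · exact Z_congr (fun x hx => by
        have : x ≠ t := fun h => hE (h ▸ hx)
        simp [this]) _ _
  have s2 : Z E (insert t (insert b A)) (p + q + q) q = Z E (insert b A) (p + q + q) q :=
    Z_congr (fun x hx => by
        have : x ≠ t := fun h => hE (h ▸ hx)
        simp [this]) _ _
  rw [s1, s2, show 4 * p + 7 * q = (p + q + q) + ((2 * (p + q) + q) + (p + q + q)) by ring,
    show 4 * q = q + (2 * q + q) by ring, Z_add, Z_add]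
  ring

def F (L : List (V × V)) : Finset (Sym2 V) := (L.map (fun e => s(e.1, e.2))).toFinset

@[simp] lemma F_nil : F ([] : List (V × V)) = ∅ := rfl
@[simp] lemma F_cons (a b : V) (L : List (V × V)) : F ((a, b) :: L) = insert s(a, b) (F L) := by
  simp [F]
@[simp] lemma F_app (L M : List (V × V)) : F (L ++ M) = F L ∪ F M := by simp [F]

lemma supp_F {L : List (V × V)} {x : V} : x ∈ supp (F L) ↔ ∃ e ∈ L, x = e.1 ∨ x = e.2 := by
  simp only [mem_supp, F, List.mem_toFinset, List.mem_map]
  constructor
  · rintro ⟨_, ⟨e, he, rfl⟩, hx⟩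
    exact ⟨e, he, by simpa using hx⟩
  · rintro ⟨e, he, hx⟩
    exact ⟨_, ⟨e, he, rfl⟩, by simpa using hx⟩

def star (a : V) (lv : List V) : List (V × V) := lv.map (fun l => (a, l))

/-- weights after `k` free choices -/
def spP (k p q : ℕ) : ℕ := 2 ^ k * p + k * 2 ^ (k - 1) * q
def spQ (k q : ℕ) : ℕ := 2 ^ k * q

lemma spP_succ (k p q : ℕ) : spP (k + 1) p q = spP k (2 * p + q) (2 * q) := by
  cases k <;> simp [spP, pow_succ] <;> ring
lemma spQ_succ (k q : ℕ) : spQ (k + 1) q = spQ k (2 * q) := by simp [spQ, pow_succ]; ring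

lemma Z_star {a : V} {A : Finset V} (ha : a ∈ A) (M : List (V × V)) : ∀ (lv : List V) (p q : ℕ),
    lv.Nodup → (∀ l ∈ lv, l ∉ A ∧ l ∉ supp (F M)) →
    Z (F (star a lv ++ M)) A p q = Z (F M) A (spP lv.length p q) (spQ lv.length q)
  | [], p, q, _, _ => by simp [star, spP, spQ]
  | l :: lv, p, q, hn, h => by
    have h1 := h l (by simp)
    rw [List.nodup_cons] at hn
    have e : star a (l :: lv) ++ M = (a, l) :: (star a lv ++ M) := rfl
    rw [e, F_cons, Z_leaf ha h1.1, Z_star ha M lv _ _ hn.2 (fun x hx => h x (by simp [hx])),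
      List.length_cons, spP_succ, spQ_succ]
    intro c
    obtain ⟨e, he, hx⟩ := supp_F.1 c
    rcases List.mem_append.1 he with he | he
    · obtain ⟨y, hy, rfl⟩ := List.mem_map.1 he
      rcases hx with hx | hx
      · exact h1.1 (hx ▸ ha)
      · exact hn.1 (hx ▸ hy)
    · exact h1.2 (supp_F.2 ⟨e, he, hx⟩)

abbrev Ch (V : Type) := List (V × List V × Option V)

def nm : List V → Ch V → List V
  | lv, [] => lv
  | lv, (b, l, o) :: C => lv ++ b :: nm (o.toList ++ l) C

def ed (cl : List V) : V → List V → Ch V → List (V × V)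
  | a, lv, [] => star a lv ++ star a cl
  | a, lv, (b, l, o) :: C => star a lv ++ (a, b) :: (star a o.toList ++ ed cl b (o.toList ++ l) C)

omit [DecidableEq V] in
lemma nm_app (m lv : List V) : ∀ C : Ch V, nm (m ++ lv) C = m ++ nm lv C
  | [] => rfl
  | (b, l, o) :: C => by simp [nm]

omit [DecidableEq V] in
lemma ed_app (cl : List V) (a : V) (m lv : List V) :
    ∀ C : Ch V, ed cl a (m ++ lv) C = star a m ++ ed cl a lv C
  | [] => by simp [ed, star]
  | (b, l, o) :: C => by simp [ed, star]

omit [DecidableEq V] in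
lemma nm_cons (t : V) (lv : List V) (C : Ch V) : nm (t :: lv) C = t :: nm lv C := nm_app [t] lv C

omit [DecidableEq V] in
lemma ed_cons (cl : List V) (a t : V) (lv : List V) (C : Ch V) :
    ed cl a (t :: lv) C = (a, t) :: ed cl a lv C := ed_app cl a [t] lv C

omit [DecidableEq V] in
lemma ed_mem (cl : List V) : ∀ (C : Ch V) (a : V) (lv : List V), ∀ e ∈ ed cl a lv C,
    (e.1 = a ∨ e.1 ∈ nm lv C) ∧ (e.2 ∈ nm lv C ∨ e.2 ∈ cl)
  | [], a, lv, e, he => by
    simp only [ed, star, List.mem_append, List.mem_map] at he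
    rcases he with ⟨x, hx, rfl⟩ | ⟨x, hx, rfl⟩ <;> simp [nm, hx]
  | (b, l, o) :: C, a, lv, e, he => by
    simp only [ed, star, List.mem_append, List.mem_map, List.mem_cons] at he
    rcases he with ⟨x, hx, rfl⟩ | rfl | ⟨x, hx, rfl⟩ | he
    · simp [nm, hx]
    · simp [nm]
    · simp only [nm, nm_app, List.mem_append, List.mem_cons]; tauto
    · have := ed_mem cl C b _ e he
      simp only [nm, List.mem_append, List.mem_cons]; tauto

lemma supp_ed {cl : List V} {C : Ch V} {a : V} {lv : List V} {x : V}
    (h : x ∈ supp (F (ed cl a lv C))) : x = a ∨ x ∈ nm lv C ∨ x ∈ cl := by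
  obtain ⟨e, he, hx⟩ := supp_F.1 h
  have := ed_mem cl C a lv e he
  rcases hx with rfl | rfl <;> tauto

/-- backward growth, continuation style: `k n u v` -/
noncomputable def bk : List V → Ch V → ℕ → ℕ → (ℕ → ℕ → ℕ → ℕ) → ℕ
  | lv, [], p, q, k => k p (spP lv.length (p + q) q) (spQ lv.length q)
  | lv, (_, l, none) :: C, p, q, k => bk l C p q (fun n u v =>
      force (n + u) fun n' => force (spP lv.length (u + v) v) fun u' =>
        force (spQ lv.length v) fun v' => k n' u' v')
  | lv, (_, l, some _) :: C, p, q, k => bk l C p q (fun n u v =>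
      force (n + (2 * u + v)) fun n' => force (spP lv.length (4 * u + 7 * v) (4 * v)) fun u' =>
        force (spQ lv.length (4 * v)) fun v' => k n' u' v')

lemma bk_spec {r : V} {A : Finset V} (hr : r ∈ A) (p q : ℕ) : ∀ (C : Ch V) (a : V) (lv : List V),
    (a :: nm lv C).Nodup → (∀ x ∈ a :: nm lv C, x ∉ A) →
    ∃ n u v, (∀ k, bk lv C p q k = k n u v) ∧ ∀ X : List (V × V),
      (∀ x ∈ supp (F X), x ∉ A ∧ x ∉ nm lv C) →
      Z (F (ed [r] a lv C ++ X)) A p q = n + Z (F X) {a} u v
  | [], a, lv, hn, hA => by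
    refine ⟨_, _, _, fun k => rfl, fun X hX => ?_⟩
    simp only [nm, List.nodup_cons, List.mem_cons] at hn hA hX
    have ha : a ∉ A := hA a (Or.inl rfl)
    have e : F (ed [r] a lv [] ++ X) = insert s(r, a) (F (star a lv ++ X)) := by
      simp [ed, star, Sym2.eq_swap]
    have hs : ∀ x ∈ supp (F (star a lv ++ X)), x ∉ A := by
      intro x hx
      obtain ⟨e, he, hx⟩ := supp_F.1 hx
      rcases List.mem_append.1 he with he | he
      · obtain ⟨y, hy, rfl⟩ := List.mem_map.1 he
        rcases hx with rfl | rfl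
        · exact ha
        · exact hA _ (Or.inr hy)
      · exact (hX x (supp_F.2 ⟨e, he, hx⟩)).1
    rw [e, Z_branch hr ha (by rw [Sym2.eq_swap]; exact not_mem_of_supp fun h => hs r h hr),
      Z_base (fun x y h hx => absurd hx (hs x (mem_supp.2 ⟨_, h, by simp⟩))),
      Z_star (mem_insert_self a A)]
    · congr 1
      exact Z_congr (fun x hx => by simp [(hX x hx).1]) _ _
    · exact hn.2
    · intro l hl
      refine ⟨?_, fun h => (hX l h).2 hl⟩
      simp only [mem_insert, not_or]
      exact ⟨fun h => hn.1 (h ▸ hl), hA l (Or.inr hl)⟩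
  | (b, l, none) :: C, a, lv, hn, hA => by
    simp only [nm, Option.toList_none, List.nil_append, List.nodup_cons, List.mem_cons,
      List.mem_append, List.nodup_append] at hn hA
    obtain ⟨n, u, v, h1, h2⟩ := bk_spec hr p q C b l (by simp only [List.nodup_cons]; tauto)
      (fun x hx => hA x (by simp only [List.mem_cons] at hx; tauto))
    refine ⟨n + u, spP lv.length (u + v) v, spQ lv.length v,
      fun k => by simp only [bk, h1, force_eq], fun X hX => ?_⟩
    simp only [nm, Option.toList_none, List.nil_append, List.mem_cons, List.mem_append] at hX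
    have hs : ∀ x ∈ supp (F (star a lv ++ X)), x ∉ A ∧ x ≠ b ∧ x ∉ nm l C := by
      intro x hx
      obtain ⟨e, he, hx⟩ := supp_F.1 hx
      rcases List.mem_append.1 he with he | he
      · obtain ⟨y, hy, rfl⟩ := List.mem_map.1 he
        rcases hx with rfl | rfl <;> grind
      · have := hX x (supp_F.2 ⟨e, he, hx⟩); tauto
    have e : F (ed [r] a lv ((b, l, none) :: C) ++ X) =
        F (ed [r] b l C ++ (b, a) :: (star a lv ++ X)) := by
      ext z; simp [ed, star, Sym2.eq_swap]; tauto
    have ab : a ≠ b := by tauto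
    rw [e, h2, F_cons, Z_branch (mem_singleton_self b) (by simpa using ab)
        (by rw [Sym2.eq_swap]; exact not_mem_of_supp fun h => (hs b h).2.1 rfl),
      Z_base (fun x y h hx => absurd (mem_singleton.1 hx)
        (hs x (mem_supp.2 ⟨_, h, by simp⟩)).2.1), Z_star (mem_insert_self a _), add_assoc]
    · congr 2
      exact Z_congr (fun x hx => by have := hX x hx; simp; tauto) _ _
    · tauto
    · intro y hy
      refine ⟨by simp; grind, fun h => ?_⟩
      have := hX y h; tauto
    · intro x hx
      rw [F_cons, supp_insert, mem_insert, mem_insert] at hx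
      rcases hx with rfl | rfl | hx
      · grind
      · grind
      · have := hs x hx; tauto
  | (b, l, some t) :: C, a, lv, hn, hA => by
    simp only [nm, Option.toList_some, nm_cons, List.nodup_cons, List.mem_cons,
      List.mem_append, List.nodup_append, List.cons_append, List.nil_append] at hn hA
    obtain ⟨n, u, v, h1, h2⟩ := bk_spec hr p q C b l (by simp only [List.nodup_cons]; tauto)
      (fun x hx => hA x (by simp only [List.mem_cons] at hx; tauto))
    refine ⟨n + (2 * u + v), spP lv.length (4 * u + 7 * v) (4 * v), spQ lv.length (4 * v),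
      fun k => by simp only [bk, h1, force_eq], fun X hX => ?_⟩
    simp only [nm, Option.toList_some, nm_cons, List.mem_cons, List.mem_append, List.cons_append,
      List.nil_append] at hX
    have hs : ∀ x ∈ supp (F (star a lv ++ X)), x ∉ A ∧ x ≠ b ∧ x ≠ t ∧ x ∉ nm l C := by
      intro x hx
      obtain ⟨e, he, hx⟩ := supp_F.1 hx
      rcases List.mem_append.1 he with he | he
      · obtain ⟨y, hy, rfl⟩ := List.mem_map.1 he
        rcases hx with rfl | rfl <;> grind
      · have := hX x (supp_F.2 ⟨e, he, hx⟩); tauto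
    have e : F (ed [r] a lv ((b, l, some t) :: C) ++ X) =
        F (ed [r] b l C ++ (b, a) :: (b, t) :: (a, t) :: (star a lv ++ X)) := by
      ext z; simp [ed, ed_cons, star, Sym2.eq_swap]; tauto
    have ab : a ≠ b := by tauto
    have at' : a ≠ t := by tauto
    have bt : b ≠ t := by tauto
    rw [e, h2, F_cons, F_cons, F_cons, Z_tri (mem_singleton_self b) (by simpa using ab)
        (by simpa using bt.symm) at' (fun h => (hs t h).2.2.1 rfl)
        (by rw [Sym2.eq_swap]; exact not_mem_of_supp fun h => (hs b h).2.1 rfl),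
      Z_base (fun x y h hx => absurd (mem_singleton.1 hx)
        (hs x (mem_supp.2 ⟨_, h, by simp⟩)).2.1), Z_base (E := insert _ _),
        Z_star (mem_insert_self a _),
        Z_congr (A := {a, b}) (B := {a}) (fun x hx => by have := hX x hx; simp; tauto)]
    · ring
    · tauto
    · intro y hy
      refine ⟨by simp; grind, fun h => ?_⟩
      have := hX y h; tauto
    · intro x y h hx
      rw [mem_singleton] at hx
      subst hx
      have : x ∈ supp (insert s(a, t) (F (star a lv ++ X))) := mem_supp.2 ⟨_, h, by simp⟩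
      rw [supp_insert, mem_insert, mem_insert] at this
      rcases this with h | h | h
      · exact absurd h.symm ab
      · exact absurd h bt
      · exact absurd rfl (hs x h).2.1
    · intro x hx
      simp only [F_cons, supp_insert, mem_insert] at hx
      rcases hx with rfl | rfl | rfl | rfl | rfl | rfl | hx
      all_goals first | (have := hs x hx; tauto) | grind

noncomputable def bt (c : Bool) (l : List V) (C : Ch V) (p q : ℕ) : ℕ :=
  cond c (bk l C p q fun n u _ => n + u) p

lemma bt_spec {r : V} {A : Finset V} (hr : r ∈ A) (c : Bool) (p q : ℕ) (C : Ch V) (a : V)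
    (lv : List V) (hn : (a :: nm lv C).Nodup) (hA : ∀ x ∈ a :: nm lv C, x ∉ A) :
    Z (F (ed (cond c [r] []) a lv C)) A p q = bt c lv C p q := by
  cases c
  · refine Z_base (fun x y h hx => ?_) _ _
    have := supp_ed (mem_supp.2 ⟨_, h, Sym2.mem_mk_left x y⟩)
    exact absurd hx (hA x (by simpa using this))
  · obtain ⟨n, u, v, h1, h2⟩ := bk_spec hr p q C a lv hn hA
    have := h2 [] (by simp [supp])
    rw [List.append_nil, F_nil, Z_base (E := ∅) (by simp)] at this
    simpa [bt, h1] using this

noncomputable def fw (c : Bool) : List V → Ch V → ℕ → ℕ → ℕ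
  | lv, [], p, q => spP lv.length p q
  | lv, (_, l, none) :: C, p, q =>
      force (spP lv.length p q) fun u => force (spQ lv.length q) fun v =>
        bt c l C u v + fw c l C (u + v) v
  | lv, (_, l, some t) :: C, p, q =>
      force (spP lv.length p q) fun u => force (spQ lv.length q) fun v =>
        bt c l C (u + v) v + bt c (t :: l) C u v + fw c l C (4 * u + 7 * v) (4 * v)

lemma fw_spec {r : V} (c : Bool) : ∀ (C : Ch V) (a : V) (lv : List V) (A : Finset V) (p q : ℕ),
    r ∈ A → a ∈ A → (nm lv C).Nodup → (∀ x ∈ nm lv C, x ∉ A) →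
    (a ∈ cond c [r] [] → ∀ b l o C', C = (b, l, o) :: C' → (b, a) ∉ ed (cond c [r] []) b l C') →
    Z (F (ed (cond c [r] []) a lv C)) A p q = fw c lv C p q
  | [], a, lv, A, p, q, hr, ha, hn, hA, _ => by
    have hs : ∀ x ∈ supp (F (star a (cond c [r] []))), x ∈ A := by
      intro x hx
      obtain ⟨e, he, hx⟩ := supp_F.1 hx
      obtain ⟨y, hy, rfl⟩ := List.mem_map.1 he
      have : y = r := by cases c <;> simp_all
      rcases hx with rfl | rfl
      · exact ha
      · exact this ▸ hr
    rw [ed, Z_star ha _ lv _ _ hn (fun l hl => ⟨hA l hl, fun h => hA l hl (hs l h)⟩),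
      Z_base (fun x y h _ => hs y (mem_supp.2 ⟨_, h, by simp⟩))]
    rfl
  | (b, l, none) :: C, a, lv, A, p, q, hr, ha, hn, hA, h0 => by
    simp only [nm, Option.toList_none, List.nil_append, List.nodup_cons, List.mem_cons,
      List.mem_append, List.nodup_append] at hn hA
    have hc : ∀ x ∈ cond c [r] [], x ∈ A := by cases c <;> simp [hr]
    have hb : b ∉ A := hA b (by tauto)
    have e : ed (cond c [r] []) a lv ((b, l, none) :: C) =
        star a lv ++ (a, b) :: ed (cond c [r] []) b l C := rfl
    have hE : s(a, b) ∉ F (ed (cond c [r] []) b l C) := by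
      intro h
      obtain ⟨e, he, h1⟩ := List.mem_map.1 (List.mem_toFinset.1 h)
      have := ed_mem _ C b l e he
      rcases Sym2.eq_iff.1 h1 with ⟨h2, h3⟩ | ⟨h2, h3⟩ <;> rw [h2, h3] at this
      · clear e he h1 h2 h3 h0; grind
      · refine h0 ?_ b l _ C rfl (by rw [← h2, ← h3]; rw [← h2] at he; exact he)
        exact this.2.resolve_left (fun h => hA a (by tauto) ha)
    rw [e, Z_star ha _ _ _ _ hn.1, F_cons, Z_branch ha hb hE,
      bt_spec hr c _ _ C b l (by simp only [List.nodup_cons]; tauto)
        (fun x hx => hA x (by simp only [List.mem_cons] at hx; tauto)),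
      fw_spec c C b l _ _ _ (mem_insert_of_mem hr) (mem_insert_self _ _) hn.2.1.2
        (fun x hx => by simp only [mem_insert]; grind) (fun h => absurd (hc b h) hb)]
    · simp only [fw, force_eq]
    · intro y hy
      refine ⟨hA y (by tauto), fun h => ?_⟩
      rw [F_cons, supp_insert, mem_insert, mem_insert] at h
      rcases h with h | h | h
      · grind
      · grind
      · have := supp_ed h; grind
  | (b, l, some t) :: C, a, lv, A, p, q, hr, ha, hn, hA, h0 => by
    simp only [nm, Option.toList_some, nm_cons, List.nodup_cons, List.mem_cons,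
      List.mem_append, List.nodup_append, List.cons_append, List.nil_append] at hn hA
    have hc : ∀ x ∈ cond c [r] [], x ∈ A := by cases c <;> simp [hr]
    have hb : b ∉ A := hA b (by tauto)
    have ht : t ∉ A := hA t (by tauto)
    have e : ed (cond c [r] []) a lv ((b, l, some t) :: C) =
        star a lv ++ (a, b) :: (a, t) :: (b, t) :: ed (cond c [r] []) b l C := by
      simp [ed, ed_cons, star]
    have hE : s(a, b) ∉ F (ed (cond c [r] []) b l C) := by
      intro h
      obtain ⟨e, he, h1⟩ := List.mem_map.1 (List.mem_toFinset.1 h)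
      have := ed_mem _ C b l e he
      rcases Sym2.eq_iff.1 h1 with ⟨h2, h3⟩ | ⟨h2, h3⟩ <;> rw [h2, h3] at this
      · clear e he h1 h2 h3 h0; grind
      · refine h0 ?_ b l _ C rfl (by rw [← h2, ← h3]; rw [← h2] at he; exact he)
        exact this.2.resolve_left (fun h => hA a (by tauto) ha)
    rw [e, Z_star ha _ _ _ _ hn.1, F_cons, F_cons, F_cons,
      Z_tri ha hb ht (by tauto) (fun h => by have := supp_ed h; grind) hE, ← F_cons, ← ed_cons,
      bt_spec hr c _ _ C b l (by simp only [List.nodup_cons]; tauto)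
        (fun x hx => hA x (by simp only [List.mem_cons] at hx; tauto)),
      bt_spec hr c _ _ C b (t :: l) (by simp only [nm_cons, List.nodup_cons, List.mem_cons]; tauto)
        (fun x hx => hA x (by simp only [nm_cons, List.mem_cons] at hx; tauto)),
      fw_spec c C b l _ _ _ (mem_insert_of_mem hr) (mem_insert_self _ _) hn.2.1.2.2
        (fun x hx => by simp only [mem_insert]; grind) (fun h => absurd (hc b h) hb)]
    · simp only [fw, force_eq]
    · intro y hy
      refine ⟨hA y (by tauto), fun h => ?_⟩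
      simp only [F_cons, supp_insert, mem_insert] at h
      rcases h with h | h | h | h | h | h | h
      all_goals first | (have := supp_ed h; grind) | grind

end Pool.Agent.H.MP_589357_co
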