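import Mathlib
import Pool.Agent.H.MP_589357_co.A

namespace Pool.Agent.H.MP_589357_co
open Finset Pool.Agent.Lib.helper1.Subtree

variable {V : Type} [DecidableEq V]

def R (L : List (V × V)) (u v : V) : Prop := (u, v) ∈ L ∨ (v, u) ∈ L

def GV (L : List (V × V)) (B : V → Prop) (S : Finset V) : Prop :=
  ∀ x ∈ S, ∃ b ∈ S, B b ∧ Relation.ReflTransGen (fun u v => R L u v ∧ v ∈ S) b x

open Classical in
noncomputable def Y (L : List (V × V)) (W : Finset V) (B : V → Prop) (p q : ℕ) : ℕ :=
  ∑ S ∈ W.powerset, if GV L B S then p + q * S.card else 0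

lemma GV_insert {L : List (V × V)} {B : V → Prop} {S : Finset V} {b : V} (hb : b ∉ S) (hB : B b) :
    GV L B (insert b S) ↔ GV L (fun x => B x ∨ R L b x) S := by
  constructor
  · intro h x hx
    obtain ⟨c, hc, h1, r⟩ := h x (mem_insert_of_mem hx)
    have key : ∀ y, Relation.ReflTransGen (fun u v => R L u v ∧ v ∈ insert b S) c y →
        y = b ∨ ∃ d ∈ S, (B d ∨ R L b d) ∧
          Relation.ReflTransGen (fun u v => R L u v ∧ v ∈ S) d y := by
      intro y r
      induction r with
      | refl =>
        rcases mem_insert.1 hc with e | e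
        · exact Or.inl e
        · exact Or.inr ⟨c, e, Or.inl h1, .refl⟩
      | @tail y z _ hyz ih =>
        rcases mem_insert.1 hyz.2 with e | e
        · exact Or.inl e
        · right
          rcases ih with rfl | ⟨d, hd, h2, r⟩
          · exact ⟨z, e, Or.inr hyz.1, .refl⟩
          · exact ⟨d, hd, h2, r.tail ⟨hyz.1, e⟩⟩
    exact (key x r).resolve_left (fun e => hb (e ▸ hx))
  · intro h x hx
    rcases mem_insert.1 hx with rfl | hx
    · exact ⟨x, mem_insert_self _ _, hB, .refl⟩
    · obtain ⟨c, hc, h1, r⟩ := h x hx
      have r' : Relation.ReflTransGen (fun u v => R L u v ∧ v ∈ insert b S) c x :=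
        Relation.ReflTransGen.mono (fun _ _ h => ⟨h.1, mem_insert_of_mem h.2⟩) _ _ r
      rcases h1 with h1 | h1
      · exact ⟨c, mem_insert_of_mem hc, h1, r'⟩
      · exact ⟨b, mem_insert_self _ _, hB, .head ⟨h1, mem_insert_of_mem hc⟩ r'⟩

lemma Y_branch {L : List (V × V)} {B : V → Prop} {W : Finset V} {b : V} (hb : b ∉ W) (hB : B b)
    (p q : ℕ) :
    Y L (insert b W) B p q = Y L W B p q + Y L W (fun x => B x ∨ R L b x) (p + q) q := by
  unfold Y
  rw [sum_powerset_insert hb]
  congr 1
  refine sum_congr rfl fun S hS => ?_
  have h1 : b ∉ S := fun h => hb (mem_powerset.1 hS h)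
  rw [card_insert_of_notMem h1]
  by_cases h : GV L (fun x => B x ∨ R L b x) S
  · rw [if_pos h, if_pos ((GV_insert h1 hB).2 h)]; ring
  · rw [if_neg h, if_neg (fun h' => h ((GV_insert h1 hB).1 h'))]

omit [DecidableEq V] in
lemma Y_congr {L L' : List (V × V)} {B B' : V → Prop} {W : Finset V}
    (h1 : ∀ x ∈ W, B x ↔ B' x) (h2 : ∀ x ∈ W, ∀ y ∈ W, R L x y ↔ R L' x y) (p q : ℕ) :
    Y L W B p q = Y L' W B' p q := by
  have key : ∀ (L L' : List (V × V)) (B B' : V → Prop), (∀ x ∈ W, B x ↔ B' x) →
      (∀ x ∈ W, ∀ y ∈ W, R L x y ↔ R L' x y) → ∀ S ⊆ W, GV L B S → GV L' B' S := by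
    intro L L' B B' h1 h2 S hS h x hx
    obtain ⟨c, hc, h3, r⟩ := h x hx
    refine ⟨c, hc, (h1 c (hS hc)).1 h3, ?_⟩
    clear hx
    induction r with
    | refl => exact .refl
    | @tail y z r hyz ih =>
      have : y ∈ S := by
        rcases Relation.ReflTransGen.cases_tail r with e | ⟨_, _, e⟩
        · exact e ▸ hc
        · exact e.2
      exact ih.tail ⟨(h2 y (hS this) z (hS hyz.2)).1 hyz.1, hyz.2⟩
  unfold Y
  refine sum_congr rfl fun S hS => ?_
  have hS' := mem_powerset.1 hS
  by_cases c : GV L B S
  · rw [if_pos c, if_pos (key _ _ _ _ h1 h2 S hS' c)]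
  · rw [if_neg c, if_neg (fun c' => c (key _ _ _ _ (fun x hx => (h1 x hx).symm)
      (fun x hx y hy => (h2 x hx y hy).symm) S hS' c'))]

omit [DecidableEq V] in
lemma Y_base {L : List (V × V)} {B : V → Prop} {W : Finset V} (h : ∀ x ∈ W, ¬ B x) (p q : ℕ) :
    Y L W B p q = p := by
  unfold Y
  rw [sum_eq_single ∅]
  · rw [if_pos (show GV L B ∅ from fun x hx => absurd hx (by simp))]; simp
  · intro S hS hne
    rw [if_neg]
    intro c
    obtain ⟨x, hx⟩ := nonempty_iff_ne_empty.2 hne
    obtain ⟨b, hb, h1, -⟩ := c x hx
    exact h b (mem_powerset.1 hS hb) h1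
  · intro h
    exact absurd (empty_mem_powerset W) h

omit [DecidableEq V] in
lemma Y_add (L : List (V × V)) (W : Finset V) (B : V → Prop) (p q p' q' : ℕ) :
    Y L W B (p + p') (q + q') = Y L W B p q + Y L W B p' q' := by
  unfold Y
  rw [← sum_add_distrib]
  refine sum_congr rfl fun F _ => ?_
  split_ifs <;> ring

lemma Y_star {L : List (V × V)} {B : V → Prop} (M : List V) : ∀ (lv : List V) (p q : ℕ),
    lv.Nodup → (∀ l ∈ lv, l ∉ M ∧ B l ∧ ∀ x ∈ M, R L l x → B x) →
    Y L (lv ++ M).toFinset B p q = Y L M.toFinset B (spP lv.length p q) (spQ lv.length q)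
  | [], p, q, _, _ => by simp [spP, spQ]
  | l :: lv, p, q, hn, h => by
    have h1 := h l (by simp)
    rw [List.nodup_cons] at hn
    rw [List.cons_append, List.toFinset_cons, Y_branch (by simp [hn.1, h1.1]) h1.2.1,
      Y_congr (L := L) (L' := L) (B := fun x => B x ∨ R L l x) (B' := B) _ (fun _ _ _ _ => Iff.rfl),
      ← Y_add, Y_star M lv _ _ hn.2 (fun x hx => h x (by simp [hx])),
      List.length_cons, spP_succ, spQ_succ]
    · congr 2 <;> ring
    · intro x hx
      refine ⟨fun c => c.elim id fun c => ?_, Or.inl⟩
      rcases List.mem_append.1 (List.mem_toFinset.1 hx) with hx | hx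
      · exact (h x (by simp [hx])).2.1
      · exact h1.2.2 x hx c

omit [DecidableEq V] in
lemma R_app {L M : List (V × V)} {x y : V} : R (L ++ M) x y ↔ R L x y ∨ R M x y := by
  simp only [R, List.mem_append]; tauto

omit [DecidableEq V] in
lemma R_cons {L : List (V × V)} {a b x y : V} :
    R ((a, b) :: L) x y ↔ (x = a ∧ y = b) ∨ (x = b ∧ y = a) ∨ R L x y := by
  simp only [R, List.mem_cons, Prod.mk.injEq]; tauto

omit [DecidableEq V] in
lemma R_star {a x y : V} {l : List V} : R (star a l) x y ↔ (x = a ∧ y ∈ l) ∨ (y = a ∧ x ∈ l) := by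
  simp only [R, star, List.mem_map, Prod.mk.injEq]
  grind

omit [DecidableEq V] in
lemma R_ed {cl : List V} {C : Ch V} {a : V} {lv : List V} {x y : V} (h : R (ed cl a lv C) x y) :
    ((x = a ∨ x ∈ nm lv C) ∧ (y ∈ nm lv C ∨ y ∈ cl)) ∨
      ((y = a ∨ y ∈ nm lv C) ∧ (x ∈ nm lv C ∨ x ∈ cl)) := by
  rcases h with h | h
  · exact Or.inl (ed_mem cl C a lv _ h)
  · exact Or.inr (ed_mem cl C a lv _ h)

noncomputable def bkV : List V → Ch V → ℕ → ℕ → (ℕ → ℕ → ℕ → ℕ) → ℕ
  | lv, [], p, q, k => k p (spP lv.length (p + q) q) (spQ lv.length q)
  | lv, (_, l, o) :: C, p, q, k => bkV l C p q (fun n u v =>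
      force (n + spP o.toList.length u v) fun n' =>
        force (spP lv.length (spP o.toList.length (u + v) v) (spQ o.toList.length v)) fun u' =>
        force (spQ lv.length (spQ o.toList.length v)) fun v' => k n' u' v')

lemma bkV_spec {r : V} (p q : ℕ) : ∀ (C : Ch V) (a : V) (lv : List V),
    (r :: a :: nm lv C).Nodup →
    ∃ n u v, (∀ k, bkV lv C p q k = k n u v) ∧ ∀ (X : List (V × V)) (W : List V),
      (∀ x y, R X x y → x ≠ r ∧ x ∉ nm lv C) → (∀ x ∈ W, x ∉ r :: a :: nm lv C) →
      Y (ed [r] a lv C ++ X) (a :: (nm lv C ++ W)).toFinset (R (ed [r] a lv C) r) p q =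
        n + Y X W.toFinset (R X a) u v
  | [], a, lv, hn => by
    refine ⟨_, _, _, fun k => rfl, fun X W hX hW => ?_⟩
    simp only [nm, List.nodup_cons, List.mem_cons] at hn hX hW
    simp only [nm, ed]
    rw [List.toFinset_cons, Y_branch (by simp; grind) (by simp [R_app, R_star]), Y_base, Y_star]
    · congr 1
      apply Y_congr
      · intro x hx
        have := hW x (by simpa using hx)
        simp only [R_app, R_star]; grind
      · intro x hx y hy
        have := hW x (by simpa using hx)
        have := hW y (by simpa using hy)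
        simp only [R_app, R_star]; grind
    · grind
    · intro l hl
      refine ⟨fun h => by have := hW l h; grind, by simp [R_app, R_star, hl], fun x hx => ?_⟩
      have := hW x hx
      have := hX l x
      simp only [R_app, R_star]; grind
    · intro x hx
      have := hW x
      simp only [List.mem_toFinset, List.mem_append] at hx
      simp only [R_app, R_star]; grind
  | (b, l, o) :: C, a, lv, hn => by
    simp only [nm, nm_app, List.nodup_cons, List.mem_cons,
      List.mem_append, List.nodup_append] at hn
    obtain ⟨n, u, v, h1, h2⟩ := bkV_spec (r := r) p q C b l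
      (by simp only [List.nodup_cons, List.mem_cons]; grind)
    refine ⟨n + spP o.toList.length u v,
      spP lv.length (spP o.toList.length (u + v) v) (spQ o.toList.length v),
      spQ lv.length (spQ o.toList.length v),
      fun k => by simp only [bkV, h1, force_eq], fun X W hX hW => ?_⟩
    simp only [nm, nm_app, List.mem_cons, List.mem_append] at hX hW
    have hX' : ∀ x y, R X x y → y ≠ r ∧ ¬ (y ∈ lv ∨ y = b ∨ y ∈ o.toList ∨ y ∈ nm l C) :=
      fun x y h => hX y x h.symm
    have h3 := h2 (star a lv ++ (a, b) :: (star a o.toList ++ (star b o.toList ++ X)))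
      (a :: (o.toList ++ (lv ++ W)))
      (by intro x y; simp only [R_app, R_star, R_cons]; have := hX x y; grind)
      (by intro x; simp only [List.mem_cons, List.mem_append]; have := hW x; grind)
    clear h2 h1
    have e : (a :: (nm lv ((b, l, o) :: C) ++ W)).toFinset =
        (b :: (nm l C ++ a :: (o.toList ++ (lv ++ W)))).toFinset := by
      ext z; simp only [nm, nm_app, List.mem_toFinset, List.mem_cons, List.mem_append]; grind
    rw [e, Y_congr (L' := ed [r] b l C ++
      (star a lv ++ (a, b) :: (star a o.toList ++ (star b o.toList ++ X))))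
      (B' := R (ed [r] b l C) r), h3, List.toFinset_cons,
      Y_branch (by simp; grind) (by simp [R_app, R_cons]), Y_star, Y_base, Y_star, Y_star,
      add_assoc]
    · congr 2
      apply Y_congr
      · intro x hx
        have := hW x (by simpa using hx)
        have := hX b x
        simp only [R_app, R_star, R_cons]; grind
      · intro x hx y hy
        have := hW x (by simpa using hx)
        have := hW y (by simpa using hy)
        simp only [R_app, R_star, R_cons]; grind
    · grind
    · intro y hy
      refine ⟨fun h => by have := hW y h; grind, by simp [R_app, R_star, hy], fun x hx => ?_⟩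
      have := hW x hx
      have := hX y x
      simp only [R_app, R_star, R_cons]; grind
    · grind
    · intro y hy
      refine ⟨?_, by simp [R_app, R_star, R_cons, hy], fun x hx => ?_⟩
      · have := hW y; simp only [List.mem_append]; grind
      · have := hW x
        have := hX y x
        simp only [List.mem_append] at hx
        simp only [R_app, R_star, R_cons]; grind
    · intro x hx
      have := hW x
      have := hX b x
      simp only [List.mem_toFinset, List.mem_append] at hx
      simp only [R_app, R_star, R_cons]; grind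
    · grind
    · intro y hy
      refine ⟨?_, by simp [R_app, R_star, R_cons, hy], fun x hx => ?_⟩
      · have := hW y; simp only [List.mem_append]; grind
      · have := hW x
        have := hX y x
        simp only [List.mem_append] at hx
        simp only [R_app, R_star, R_cons]; grind
    · intro x _
      simp only [ed, ed_app, R_app, R_star, R_cons]; grind
    · intro x _ y _
      simp only [ed, ed_app, R_app, R_star, R_cons]; grind

noncomputable def btV (c : Bool) : Ch V → ℕ → ℕ → ℕ
  | [], p, _ => p
  | (_, l, o) :: C, p, q => cond c (bkV l C p q fun n u v => n + spP o.toList.length u v) p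

lemma btV_spec {r : V} (c : Bool) (p q : ℕ) (C : Ch V) (a : V) (lv : List V)
    (hn : (r :: a :: nm lv C).Nodup) :
    Y (ed (cond c [r] []) a lv C) (nm lv C).toFinset (R (ed (cond c [r] []) a lv C) r) p q =
      btV c C p q := by
  cases c
  · have : btV false C p q = p := by cases C <;> rfl
    rw [this]
    refine Y_base (fun x hx h => ?_) _ _
    have := R_ed h
    simp only [List.nodup_cons, List.mem_cons] at hn
    simp only [cond_false, List.not_mem_nil] at this
    grind
  · match C with
    | [] =>
      refine Y_base (fun x hx => ?_) _ _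
      simp only [nm, List.nodup_cons, List.mem_cons, List.mem_toFinset] at hn hx
      simp only [cond_true, ed, R_app, R_star]; grind
    | (b, l, o) :: C =>
      simp only [nm, nm_app, List.nodup_cons, List.mem_cons,
        List.mem_append, List.nodup_append] at hn
      obtain ⟨n, u, v, h1, h2⟩ := bkV_spec (r := r) p q C b l
        (by simp only [List.nodup_cons, List.mem_cons]; grind)
      have h3 := h2 (star a lv ++ (a, b) :: (star a o.toList ++ star b o.toList))
        (o.toList ++ lv)
        (by intro x y; simp only [R_app, R_star, R_cons]; grind)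
        (by intro x; simp only [List.mem_cons, List.mem_append]; grind)
      have e : (nm lv ((b, l, o) :: C)).toFinset =
          (b :: (nm l C ++ (o.toList ++ lv))).toFinset := by
        ext z; simp only [nm, nm_app, List.mem_toFinset, List.mem_cons, List.mem_append]; grind
      simp only [btV, cond_true, h1]
      clear h1 h2
      rw [e, Y_congr (L' := ed [r] b l C ++
        (star a lv ++ (a, b) :: (star a o.toList ++ star b o.toList)))
        (B' := R (ed [r] b l C) r), h3, Y_star, Y_base]
      · intro x hx
        simp only [List.mem_toFinset] at hx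
        simp only [R_app, R_star, R_cons]; grind
      · grind
      · intro y hy
        refine ⟨by grind, by simp [R_app, R_star, R_cons, hy], fun x hx => ?_⟩
        simp only [R_app, R_star, R_cons]; grind
      · intro x _
        simp only [ed, ed_app, R_app, R_star, R_cons]; grind
      · intro x _ y _
        simp only [ed, ed_app, R_app, R_star, R_cons]; grind

noncomputable def fwV (c : Bool) : List V → Ch V → ℕ → ℕ → ℕ
  | lv, [], p, q => spP lv.length p q
  | lv, (_, l, o) :: C, p, q =>
      force (spP lv.length p q) fun u => force (spQ lv.length q) fun v =>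
        btV c C (spP o.toList.length u v) (spQ o.toList.length v) +
          fwV c l C (spP o.toList.length (u + v) v) (spQ o.toList.length v)

lemma fwV_spec {r : V} (c : Bool) : ∀ (C : Ch V) (a : V) (lv : List V) (p q : ℕ),
    (nm lv C).Nodup → a ∉ nm lv C → r ∉ nm lv C →
    Y (ed (cond c [r] []) a lv C) (nm lv C).toFinset
      (fun x => R (ed (cond c [r] []) a lv C) a x ∨ R (ed (cond c [r] []) a lv C) r x) p q =
      fwV c lv C p q
  | [], a, lv, p, q, hn, ha, hr => by
    have := Y_star (L := ed (cond c [r] []) a lv [])
      (B := fun x => R (ed (cond c [r] []) a lv []) a x ∨ R (ed (cond c [r] []) a lv []) r x)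
      [] lv p q hn (fun l hl => ⟨by simp, by simp [ed, R_app, R_star, hl], by simp⟩)
    rw [List.append_nil, Y_base (W := List.toFinset []) (by simp)] at this
    exact this
  | (b, l, o) :: C, a, lv, p, q, hn, ha, hr => by
    simp only [nm, nm_app, List.nodup_cons, List.mem_cons,
      List.mem_append, List.nodup_append] at hn ha hr
    have hc : ∀ x ∈ cond c [r] [], x = r := by cases c <;> simp
    have h1 := fun p q => btV_spec (r := r) c p q C b l
      (by simp only [List.nodup_cons, List.mem_cons]; grind)
    have h2 := fun p q => fwV_spec (r := r) c C b l p q (by grind) (by grind) (by grind)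
    have hR : ∀ x y, R (ed (cond c [r] []) b l C) x y → (x = b ∨ x ∈ nm l C ∨ x = r) := by
      intro x y h
      have := R_ed h
      grind
    simp only [fwV, force_eq, ← h1, ← h2]
    clear h1 h2
    have e : nm lv ((b, l, o) :: C) = lv ++ b :: (o.toList ++ nm l C) := by simp [nm, nm_app]
    rw [e, Y_star, List.toFinset_cons, Y_branch (by simp; grind) (by simp [ed, R_app, R_cons]),
      Y_star, Y_star]
    · congr 1
      · apply Y_congr
        · intro x hx
          have := hR a x
          simp only [List.mem_toFinset] at hx
          simp only [ed, ed_app, R_app, R_star, R_cons]; grind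
        · intro x hx y hy
          simp only [List.mem_toFinset] at hx hy
          simp only [ed, ed_app, R_app, R_star, R_cons]; grind
      · apply Y_congr
        · intro x hx
          have := hR a x
          simp only [List.mem_toFinset] at hx
          simp only [ed, ed_app, R_app, R_star, R_cons]; grind
        · intro x hx y hy
          simp only [List.mem_toFinset] at hx hy
          simp only [ed, ed_app, R_app, R_star, R_cons]; grind
    · grind
    · intro y hy
      refine ⟨by grind, by simp [ed, R_app, R_star, R_cons, hy], fun x hx => ?_⟩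
      have := hR y x
      simp only [ed, ed_app, R_app, R_star, R_cons]; grind
    · grind
    · intro y hy
      refine ⟨by grind, by simp [ed, R_app, R_star, R_cons, hy], fun x hx => ?_⟩
      have := hR y x
      simp only [ed, ed_app, R_app, R_star, R_cons]; grind
    · grind
    · intro y hy
      refine ⟨by grind, by simp [ed, R_app, R_star, hy], fun x hx => ?_⟩
      have := hR y x
      simp only [ed, ed_app, R_app, R_star, R_cons]; grind

end Pool.Agent.H.MP_589357_co
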