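import Mathlib
import Pool.Agent.H.MP_589357_co.B

namespace Pool.Agent.H.MP_589357_co
open Finset Pool.Agent.Lib.helper1.Subtree

variable {V : Type} [LinearOrder V]

def flt (v : V) (L : List (V × V)) : List (V × V) := L.filter (fun e => v ≤ e.1 ∧ v ≤ e.2)

lemma flt_app (v : V) (L M : List (V × V)) : flt v (L ++ M) = flt v L ++ flt v M := by simp [flt]

lemma flt_star_lt {v a : V} (h : a < v) (l : List V) : flt v (star a l) = [] := by
  simp only [flt, star, List.filter_eq_nil_iff, List.mem_map]
  rintro _ ⟨x, _, rfl⟩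
  simp [not_le.2 h]

lemma flt_star_lt' {v : V} (a : V) {l : List V} (h : ∀ x ∈ l, x < v) : flt v (star a l) = [] := by
  simp only [flt, star, List.filter_eq_nil_iff, List.mem_map]
  rintro _ ⟨x, hx, rfl⟩
  simp [not_le.2 (h x hx)]

lemma flt_star_ge {v a : V} (h : v ≤ a) {l : List V} (h' : ∀ x ∈ l, v ≤ x) :
    flt v (star a l) = star a l := by
  simp only [flt, star, List.filter_eq_self, List.mem_map]
  rintro _ ⟨x, hx, rfl⟩
  simp [h, h' x hx]

lemma flt_step {v a : V} (h : a < v) (cl lv : List V) (b : V) (l : List V) (o : Option V)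
    (C : Ch V) : flt v (ed cl a lv ((b, l, o) :: C)) = flt v (ed cl b (o.toList ++ l) C) := by
  have : (a, b) :: (star a o.toList ++ ed cl b (o.toList ++ l) C) =
      star a [b] ++ (star a o.toList ++ ed cl b (o.toList ++ l) C) := rfl
  rw [ed, this, flt_app, flt_app, flt_app, flt_star_lt h, flt_star_lt h, flt_star_lt h]
  rfl

lemma flt_self {v : V} {cl : List V} (hc : ∀ x ∈ cl, x < v) : ∀ (C : Ch V) (a : V) (lv : List V),
    v ≤ a → (∀ x ∈ nm lv C, v ≤ x) → flt v (ed cl a lv C) = ed [] a lv C
  | [], a, lv, h, h' => by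
    rw [ed, flt_app, flt_star_ge (l := lv) h h', flt_star_lt' a hc]; rfl
  | (b, l, o) :: C, a, lv, h, h' => by
    have : ∀ cl, (a, b) :: (star a o.toList ++ ed cl b (o.toList ++ l) C) =
        star a [b] ++ (star a o.toList ++ ed cl b (o.toList ++ l) C) := fun _ => rfl
    simp only [nm, List.mem_append, List.mem_cons] at h'
    rw [ed, ed, this, this, flt_app, flt_app, flt_app, flt_star_ge h (fun x hx => h' x (Or.inl hx)),
      flt_star_ge h (fun x hx => h' x (by simp at hx; simp [hx])),
      flt_star_ge h (fun x hx => h' x (by simp [nm_app, hx])),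
      flt_self hc C b _ (h' b (by simp)) (fun x hx => h' x (by simp [hx]))]

noncomputable def tot (f : List V → Ch V → ℕ) (p : ℕ) : List V → Ch V → ℕ
  | lv, [] => lv.length * p
  | lv, (_, l, o) :: C => lv.length * p + (f (o.toList ++ l) C + tot f p (o.toList ++ l) C)

lemma tot_spec (T : List (V × V) → Finset V → V → ℕ) (f : List V → Ch V → ℕ) (p : ℕ)
    (h0 : ∀ L W v, (∀ x, ¬ R L v x) → T L W v = p)
    (h1 : ∀ a lv C, (a :: nm lv C).Nodup → T (ed [] a lv C) (nm lv C).toFinset a = f lv C)
    (cl : List V) : ∀ (C : Ch V) (a : V) (lv : List V), (∀ x ∈ cl, x ≤ a) →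
      (a :: nm lv C).Pairwise (· < ·) →
      ((nm lv C).map (fun v => T (flt v (ed cl a lv C))
        ((nm lv C).toFinset.filter (v < ·)) v)).sum = tot f p lv C
  | [], a, lv, hc, hs => by
    rw [List.pairwise_cons] at hs
    rw [List.map_congr_left (g := fun _ => p)]
    · simp [tot, nm]
    · intro v hv
      apply h0
      rw [ed, flt_app, flt_star_lt (hs.1 v hv), flt_star_lt (hs.1 v hv)]
      simp [R]
  | (b, l, o) :: C, a, lv, hc, hs => by
    rw [List.pairwise_cons] at hs
    have hs2 := hs.2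
    rw [nm, List.pairwise_append] at hs2
    have hb : a < b := hs.1 b (by simp [nm])
    have ih := tot_spec T f p h0 h1 cl C b (o.toList ++ l) (fun x hx => (hc x hx).trans hb.le)
      hs2.2.1
    have hs3 := List.pairwise_cons.1 hs2.2.1
    rw [List.map_congr_left (g := fun v => T (flt v (ed cl b (o.toList ++ l) C))
      ((nm lv ((b, l, o) :: C)).toFinset.filter (v < ·)) v)
      (fun v hv => by rw [flt_step (hs.1 v hv)])]
    rw [tot, ← ih, ← h1 b _ C (hs2.2.1.imp ne_of_lt)]
    generalize hN : (nm lv ((b, l, o) :: C)).toFinset = N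
    have hN' : ∀ x, x ∈ N ↔ x ∈ lv ∨ x = b ∨ x ∈ nm (o.toList ++ l) C := by
      intro x; rw [← hN]; simp only [nm, List.mem_toFinset, List.mem_append, List.mem_cons]
    rw [nm, List.map_append, List.sum_append, List.map_cons, List.sum_cons]
    congr 1
    · rw [List.map_congr_left (g := fun _ => p)]
      · simp
      · intro v hv
        apply h0
        intro x hx
        have h2 : R (ed cl b (o.toList ++ l) C) v x :=
          hx.imp (fun h => (List.mem_filter.1 h).1) (fun h => (List.mem_filter.1 h).1)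
        have h3 := R_ed h2
        have h4 : v < b := hs2.2.2 v hv b (by simp)
        have h5 : v ∉ nm (o.toList ++ l) C := fun h => absurd (hs3.1 v h) (not_lt.2 h4.le)
        have h6 : v ∉ cl := fun h => absurd (hs.1 v (by simp [nm, hv])) (not_lt.2 (hc v h))
        have := h4.ne
        grind
    · congr 1
      · rw [flt_self (fun x hx => (hc x hx).trans_lt hb) C b _ le_rfl (fun x hx => (hs3.1 x hx).le)]
        congr 1
        ext x
        rw [mem_filter, hN', List.mem_toFinset]
        refine ⟨?_, fun h => ⟨Or.inr (Or.inr h), hs3.1 x h⟩⟩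
        rintro ⟨h | h | h, h'⟩
        · exact absurd (hs2.2.2 x h b (by simp)) (not_lt.2 h'.le)
        · exact absurd h h'.ne'
        · exact h
      · congr 1
        apply List.map_congr_left
        intro v hv
        congr 1
        ext x
        rw [mem_filter, mem_filter, hN', List.mem_toFinset]
        have := hs3.1 v hv
        refine ⟨?_, fun h => ⟨Or.inr (Or.inr h.1), h.2⟩⟩
        rintro ⟨h | h | h, h'⟩
        · exact absurd ((hs2.2.2 x h b (by simp)).trans this) (not_lt.2 h'.le)
        · exact absurd (h ▸ this) (not_lt.2 h'.le)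
        · exact ⟨h, h'⟩

lemma conn_iff {G : SimpleGraph V} {L : List (V × V)} (hG : ∀ x y, G.Adj x y ↔ R L x y)
    {v : V} {S : Finset V} (hv : v ∉ S) :
    (G.induce ((insert v S : Finset V) : Set V)).Connected ↔ GV L (R L v) S := by
  have h1 : GV L (fun x => x = v ∨ R L v x) S ↔ GV L (R L v) S := by
    refine forall₂_congr fun x _ => exists_congr fun b => and_congr_right fun hb => ?_
    have : b ≠ v := fun e => hv (e ▸ hb)
    simp [this]
  rw [← h1, ← GV_insert (B := fun x => x = v) hv rfl]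
  generalize hT : insert v S = T
  have hvT : v ∈ T := hT ▸ mem_insert_self _ _
  constructor
  · intro h x hx
    refine ⟨v, hvT, rfl, ?_⟩
    have := (SimpleGraph.reachable_iff_reflTransGen _ _).1 (h.preconnected ⟨v, hvT⟩ ⟨x, hx⟩)
    exact Relation.ReflTransGen.lift (p := fun u w => R L u w ∧ w ∈ T) Subtype.val
      (fun a b hab => ⟨(hG _ _).1 hab, b.2⟩) _ _ this
  · intro h
    have hr : ∀ x, Relation.ReflTransGen (fun u w => R L u w ∧ w ∈ T) v x →
        ∃ hx : x ∈ T, (G.induce (T : Set V)).Reachable ⟨v, hvT⟩ ⟨x, hx⟩ := by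
      intro x r
      induction r with
      | refl => exact ⟨hvT, .refl _⟩
      | @tail y z _ hyz ih =>
        obtain ⟨hy, ih⟩ := ih
        exact ⟨hyz.2, ih.trans (SimpleGraph.Adj.reachable
          (show (G.induce (T : Set V)).Adj ⟨y, hy⟩ ⟨z, hyz.2⟩ from (hG _ _).2 hyz.1))⟩
    have hr' : ∀ x : (T : Set V), (G.induce (T : Set V)).Reachable ⟨v, hvT⟩ x := by
      rintro ⟨x, hx⟩
      obtain ⟨b, -, rfl, r⟩ := h x hx
      exact (hr x r).2
    have : Nonempty (T : Set V) := ⟨⟨v, hvT⟩⟩
    exact ⟨fun x y => (hr' x).symm.trans (hr' y)⟩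

open Classical in
lemma sum_sets [Fintype V] {G : SimpleGraph V} {L : List (V × V)}
    (hG : ∀ x y, G.Adj x y ↔ R L x y) (p q : ℕ) :
    ∑ S ∈ univ.filter (fun S : Finset V => (G.induce (S : Set V)).Connected),
        (p + q * (S.card - 1)) =
      ∑ v, Y (flt v L) (univ.filter (v < ·)) (R (flt v L) v) p q := by
  have hf : ∀ v x y, v ≤ x → v ≤ y → (R (flt v L) x y ↔ R L x y) := by
    intro v x y h1 h2
    simp [R, flt, h1, h2]
  rw [sum_congr rfl (fun v _ => Y_congr (L := flt v L) (L' := L) (B' := R L v)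
    (fun x hx => hf v v x le_rfl (mem_filter.1 hx).2.le)
    (fun x hx y hy => hf v x y (mem_filter.1 hx).2.le (mem_filter.1 hy).2.le) p q)]
  unfold Y
  simp_rw [← sum_filter]
  rw [sum_sigma']
  symm
  have hlt : ∀ z : Σ _ : V, Finset V, z ∈ univ.sigma (fun v => (univ.filter (v < ·)).powerset.filter
      (GV L (R L v))) → (∀ x ∈ z.2, z.1 < x) ∧ GV L (R L z.1) z.2 := by
    intro z hz
    simp only [mem_sigma, mem_univ, mem_filter, mem_powerset, true_and] at hz
    exact ⟨fun x hx => (mem_filter.1 (hz.1 hx)).2, hz.2⟩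
  refine sum_bij (fun z _ => insert z.1 z.2) ?_ ?_ ?_ ?_
  · intro z hz
    obtain ⟨h1, h2⟩ := hlt z hz
    exact mem_filter.2 ⟨mem_univ _, (conn_iff hG (fun h => lt_irrefl _ (h1 _ h))).2 h2⟩
  · rintro ⟨v, S⟩ hz ⟨w, T⟩ hw e
    have h1 := (hlt _ hz).1
    have h2 := (hlt _ hw).1
    simp only at h1 h2 e
    have : v = w := by
      have a1 : v ∈ insert w T := e ▸ mem_insert_self _ _
      have a2 : w ∈ insert v S := e ▸ mem_insert_self _ _
      rcases mem_insert.1 a1 with a1 | a1
      · exact a1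
      · rcases mem_insert.1 a2 with a2 | a2
        · exact a2.symm
        · exact absurd (h1 _ a2) (not_lt.2 (h2 _ a1).le)
    subst this
    have : S = T := by
      rw [← erase_insert (fun h => lt_irrefl _ (h1 _ h)), e,
        erase_insert (fun h => lt_irrefl _ (h2 _ h))]
    rw [this]
  · intro S hS
    have hc := (mem_filter.1 hS).2
    obtain ⟨⟨x, hx⟩⟩ := hc.nonempty
    have hne : S.Nonempty := ⟨x, hx⟩
    have e := insert_erase (S.min'_mem hne)
    refine ⟨⟨S.min' hne, S.erase (S.min' hne)⟩, ?_, e⟩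
    simp only [mem_sigma, mem_univ, mem_filter, mem_powerset, true_and]
    refine ⟨fun y hy => mem_filter.2 ⟨mem_univ _, ?_⟩, (conn_iff hG (notMem_erase _ _)).1 ?_⟩
    · exact lt_of_le_of_ne (S.min'_le y (mem_of_mem_erase hy)) (ne_of_mem_erase hy).symm
    · rw [e]; exact hc
  · intro z hz
    rw [card_insert_of_notMem (fun h => lt_irrefl _ ((hlt z hz).1 _ h))]
    simp

lemma reach (G : SimpleGraph V) (cl : List V) : ∀ (C : Ch V) (a : V) (lv : List V),
    (∀ e ∈ ed cl a lv C, G.Adj e.1 e.2) → ∀ x ∈ nm lv C, G.Reachable a x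
  | [], a, lv, h, x, hx => (h (a, x) (by simp [ed, star]; exact Or.inl hx)).reachable
  | (b, l, o) :: C, a, lv, h, x, hx => by
    have hb : G.Reachable a b := (h (a, b) (by simp [ed])).reachable
    rcases List.mem_append.1 hx with hx | hx
    · exact (h (a, x) (by simp [ed, star, hx])).reachable
    · rcases List.mem_cons.1 hx with rfl | hx
      · exact hb
      · exact hb.trans (reach G cl C b _ (fun e he => h e (by simp [ed, he])) x hx)

section
variable [Fintype V] {G : SimpleGraph V} {r : V} {lv : List V} {C : Ch V}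

lemma sum_all (hs : (r :: nm lv C).Pairwise (· < ·)) (hu : ∀ v, v ∈ r :: nm lv C) (g : V → ℕ) :
    ∑ v, g v = g r + ((nm lv C).map g).sum := by
  have : (univ : Finset V) = (r :: nm lv C).toFinset := by ext v; simpa using hu v
  rw [this, List.sum_toFinset g (hs.imp ne_of_lt)]
  rfl

lemma flt_root (hs : (r :: nm lv C).Pairwise (· < ·)) (hu : ∀ v, v ∈ r :: nm lv C)
    (L : List (V × V)) : flt r L = L := by
  have : ∀ v, r ≤ v := fun v => by
    rcases List.mem_cons.1 (hu v) with h | h
    · exact h.ge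
    · exact ((List.pairwise_cons.1 hs).1 v h).le
  simp [flt, this]

lemma trees_eq (φ : V → ℕ) (hφ : StrictMono φ) (hG : ∀ x y, G.Adj x y ↔ R (ed [r] r lv C) x y)
    (hs : (r :: nm lv C).Pairwise (· < ·)) (hu : ∀ v, v ∈ r :: nm lv C)
    (h0 : ∀ b l o C', C = (b, l, o) :: C' → (b, r) ∉ ed [r] b l C') (p q : ℕ) :
    ∑ᶠ T : {T : G.Subgraph // T.coe.IsTree}, (p + q * (T.1.verts.ncard - 1)) =
      fw true lv C p q + tot (fun l C => fw false l C p q) p lv C := by
  have hn := List.nodup_cons.1 (hs.imp ne_of_lt)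
  rw [sum_trees φ hφ.injective G (F (ed [r] r lv C)) ?_ (fun v => F (flt v (ed [r] r lv C))),
    sum_all hs hu, flt_root hs hu]
  · congr 1
    · exact fw_spec true C r lv {r} p q (by simp) (by simp) hn.2
        (fun x hx h => hn.1 (mem_singleton.1 h ▸ hx)) (fun _ => h0)
    · refine tot_spec (fun L _ v => Z (F L) {v} p q) _ p ?_ ?_ [r] C r lv (by simp) hs
      · intro L _ v h
        refine Z_base (fun x y h1 hx => ?_) _ _
        rw [mem_singleton] at hx
        subst hx
        obtain ⟨e, he, h2⟩ := List.mem_map.1 (List.mem_toFinset.1 h1)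
        refine absurd ?_ (h y)
        rcases Sym2.eq_iff.1 h2 with ⟨rfl, rfl⟩ | ⟨rfl, rfl⟩
        · exact Or.inl he
        · exact Or.inr he
      · intro a l C hn
        have hn := List.nodup_cons.1 hn
        exact fw_spec (r := a) false C a l {a} p q (by simp) (by simp) hn.2
          (fun x hx h => hn.1 (mem_singleton.1 h ▸ hx)) (by simp)
  · intro v e
    simp only [F, flt, List.mem_toFinset, List.mem_map, List.mem_filter, decide_eq_true_eq,
      hφ.le_iff_le]
    constructor
    · rintro ⟨e', ⟨h1, h2, h3⟩, rfl⟩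
      refine ⟨⟨e', h1, rfl⟩, fun x hx => ?_⟩
      rcases Sym2.mem_iff.1 hx with h4 | h4 <;> rw [h4] <;> assumption
    · rintro ⟨⟨e', h1, rfl⟩, h2⟩
      exact ⟨e', ⟨h1, h2 _ (by simp), h2 _ (by simp)⟩, rfl⟩
  · ext e
    induction e using Sym2.ind with
    | h x y =>
      simp only [F, List.coe_toFinset, List.mem_map, Set.mem_ofPred_eq, SimpleGraph.mem_edgeSet, hG]
      constructor
      · rintro ⟨⟨a, b⟩, h1, h2⟩
        rcases Sym2.eq_iff.1 h2 with ⟨rfl, rfl⟩ | ⟨rfl, rfl⟩
        · exact Or.inl h1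
        · exact Or.inr h1
      · rintro (h | h)
        · exact ⟨_, h, rfl⟩
        · exact ⟨_, h, Sym2.eq_swap⟩

open Classical in
lemma sets_eq (hG : ∀ x y, G.Adj x y ↔ R (ed [r] r lv C) x y)
    (hs : (r :: nm lv C).Pairwise (· < ·)) (hu : ∀ v, v ∈ r :: nm lv C) (p q : ℕ) :
    ∑ S ∈ univ.filter (fun S : Finset V => (G.induce (S : Set V)).Connected),
        (p + q * (S.card - 1)) =
      fwV true lv C p q + tot (fun l C => fwV false l C p q) p lv C := by
  have hn := List.nodup_cons.1 (hs.imp ne_of_lt)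
  have hl := (List.pairwise_cons.1 hs).1
  rw [sum_sets hG, sum_all hs hu, flt_root hs hu]
  congr 1
  · have : univ.filter (r < ·) = (nm lv C).toFinset := by
      ext x
      simp only [mem_filter, mem_univ, true_and, List.mem_toFinset]
      exact ⟨fun h => (List.mem_cons.1 (hu x)).resolve_left h.ne', hl x⟩
    rw [this, ← fwV_spec (r := r) true C r lv p q hn.2 hn.1 hn.1]
    exact Y_congr (fun x _ => by simp) (fun _ _ _ _ => Iff.rfl) _ _
  · rw [← tot_spec (fun L W v => Y L W (R L v) p q) _ p ?_ ?_ [r] C r lv (by simp) hs]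
    · congr 1
      apply List.map_congr_left
      intro v hv
      congr 1
      ext x
      simp only [mem_filter, mem_univ, true_and, List.mem_toFinset]
      exact ⟨fun h => ⟨(List.mem_cons.1 (hu x)).resolve_left ((hl v hv).trans h).ne', h⟩,
        fun h => h.2⟩
    · exact fun L W v h => Y_base (fun x _ => h x) _ _
    · intro a l C hn
      have hn := List.nodup_cons.1 hn
      rw [← fwV_spec (r := a) false C a l p q hn.2 hn.1 hn.1]
      exact Y_congr (fun x _ => by simp) (fun _ _ _ _ => Iff.rfl) _ _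

end

end Pool.Agent.H.MP_589357_co
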