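import Mathlib
import Pool.Agent.H.MP_589357_co.C

namespace Pool.Agent.H.MP_589357_co
open Pool.Agent.Lib.helper1.Subtree

variable {V : Type}

abbrev K10 := ℕ → ℕ → ℕ → ℕ → ℕ → ℕ → ℕ → ℕ → ℕ → ℕ → ℕ

noncomputable def frc (k : K10) : K10 := fun a b c d e f g h i j =>
  force a fun a => force b fun b => force c fun c => force d fun d => force e fun e =>
  force f fun f => force g fun g => force h fun h => force i fun i => force j fun j =>
  k a b c d e f g h i j

lemma frc_eq (k : K10) : frc k = k := by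
  funext a b c d e f g h i j
  simp only [frc, force_eq]

noncomputable def allT : Ch V → K10 → ℕ
  | [], k => k 1 0 1 1 1 0 1 0 0 0
  | (_, l, none) :: C, k => allT C fun n1 n2 c s f1 f2 g1 g2 t1 t2 =>
      let m := l.length
      frc k (n1 + spQ m c) (n2 + spP m s c) (spQ m c) (spP m s c + spQ m c)
        (n1 + spQ m c + spQ m f1) (n2 + spP m s c + spQ m f1 + spP m f2 f1)
        (1 + spQ m g1) (spQ m g1 + spP m g2 g1)
        (spQ m g1 + m + t1) (spP m g2 g1 + t2)
  | (_, l, some _) :: C, k => allT C fun n1 n2 c s f1 f2 g1 g2 t1 t2 =>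
      let m := l.length
      frc k (n1 + 2 * spQ m c) (n2 + 2 * spP m s c + spQ m c) (4 * spQ m c)
        (4 * spP m s c + 7 * spQ m c)
        (2 * n1 + spQ m c + spQ (m + 1) c + 4 * spQ m f1)
        (n1 + spQ m c + 2 * n2 + spP m s c + spP (m + 1) s c + 7 * spQ m f1 + 4 * spP m f2 f1)
        (2 + 4 * spQ m g1) (1 + 7 * spQ m g1 + 4 * spP m g2 g1)
        (spQ (m + 1) g1 + (m + 1) + t1) (spP (m + 1) g2 g1 + t2)

lemma allT_spec : ∀ C : Ch V, ∃ n1 n2 c s f1 f2 g1 g2 t1 t2,
    (∀ k, allT C k = k n1 n2 c s f1 f2 g1 g2 t1 t2) ∧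
    (∀ lv p q k, bk lv C p q k = k (p * n1 + q * n2) (spP lv.length (p * c + q * s) (q * c))
      (spQ lv.length (q * c))) ∧
    (∀ lv p q, fw true lv C p q = spP lv.length p q * f1 + spQ lv.length q * f2) ∧
    (∀ lv p q, fw false lv C p q = spP lv.length p q * g1 + spQ lv.length q * g2) ∧
    (∀ lv p q, tot (fun l C => fw false l C p q) p lv C = lv.length * p + (p * t1 + q * t2))
  | [] => ⟨1, 0, 1, 1, 1, 0, 1, 0, 0, 0, fun _ => rfl, by simp [bk], by simp [fw], by simp [fw],
      by simp [tot]⟩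
  | (b, l, none) :: C => by
    obtain ⟨n1, n2, c, s, f1, f2, g1, g2, t1, t2, h1, h2, h3, h4, h5⟩ := allT_spec C
    refine ⟨_, _, _, _, _, _, _, _, _, _, fun k => by rw [allT, h1, frc_eq], ?_, ?_, ?_, ?_⟩
    · intro lv p q k
      simp only [bk, h2, force_eq]
      congr 1 <;> simp only [spP, spQ] <;> ring
    · intro lv p q
      simp only [fw, bt, cond_true, h2, h3, force_eq, spP, spQ]; ring
    · intro lv p q
      simp only [fw, bt, cond_false, h4, force_eq, spP, spQ]; ring
    · intro lv p q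
      rw [tot, h5, h4]
      simp only [Option.toList_none, List.nil_append, spP, spQ]; ring
  | (b, l, some t) :: C => by
    obtain ⟨n1, n2, c, s, f1, f2, g1, g2, t1, t2, h1, h2, h3, h4, h5⟩ := allT_spec C
    refine ⟨_, _, _, _, _, _, _, _, _, _, fun k => by rw [allT, h1, frc_eq], ?_, ?_, ?_, ?_⟩
    · intro lv p q k
      simp only [bk, h2, force_eq]
      congr 1 <;> simp only [spP, spQ] <;> ring
    · intro lv p q
      simp only [fw, bt, cond_true, h2, h3, force_eq, spP, spQ, List.length_cons]; ring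
    · intro lv p q
      simp only [fw, bt, cond_false, h4, force_eq, spP, spQ]; ring
    · intro lv p q
      rw [tot, h5, h4]
      simp only [Option.toList_some, List.cons_append, List.nil_append, List.length_cons, spP, spQ]
      ring

lemma evalT (lv : List V) (C : Ch V) (p q : ℕ) :
    fw true lv C p q + tot (fun l C => fw false l C p q) p lv C =
      allT C fun _ _ _ _ f1 f2 _ _ t1 t2 =>
        spP lv.length p q * f1 + spQ lv.length q * f2 + (lv.length * p + (p * t1 + q * t2)) := by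
  obtain ⟨n1, n2, c, s, f1, f2, g1, g2, t1, t2, h1, h2, h3, h4, h5⟩ := allT_spec C
  rw [h1, h3, h5]

noncomputable def allV : Ch V → K10 → ℕ
  | [], k => k 1 0 1 1 1 0 1 0 0 0
  | (_, l, o) :: C, k => allV C fun n1 n2 c s f1 f2 g1 g2 t1 t2 =>
      let m := l.length
      let j := o.toList.length
      frc k (n1 + spQ j (spQ m c)) (n2 + spP j (spP m s c) (spQ m c)) (spQ j (spQ m c))
        (spP j (spP m s c + spQ m c) (spQ m c))
        (spQ j (n1 + spQ m f1)) (spP j (n2 + spP m f2 f1) (n1 + spQ m f1) + spQ j (spQ m f1))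
        (spQ j (1 + spQ m g1)) (spP j (spP m g2 g1) (1 + spQ m g1) + spQ j (spQ m g1))
        (spQ (j + m) g1 + (j + m) + t1) (spP (j + m) g2 g1 + t2)

lemma allV_spec : ∀ C : Ch V, ∃ n1 n2 c s f1 f2 g1 g2 t1 t2,
    (∀ k, allV C k = k n1 n2 c s f1 f2 g1 g2 t1 t2) ∧
    (∀ lv p q k, bkV lv C p q k = k (p * n1 + q * n2) (spP lv.length (p * c + q * s) (q * c))
      (spQ lv.length (q * c))) ∧
    (∀ p q, btV true C p q = p * n1 + q * n2) ∧
    (∀ lv p q, fwV true lv C p q = spP lv.length p q * f1 + spQ lv.length q * f2) ∧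
    (∀ lv p q, fwV false lv C p q = spP lv.length p q * g1 + spQ lv.length q * g2) ∧
    (∀ lv p q, tot (fun l C => fwV false l C p q) p lv C = lv.length * p + (p * t1 + q * t2))
  | [] => ⟨1, 0, 1, 1, 1, 0, 1, 0, 0, 0, fun _ => rfl, by simp [bkV], by simp [btV], by simp [fwV],
      by simp [fwV], by simp [tot]⟩
  | (b, l, o) :: C => by
    obtain ⟨n1, n2, c, s, f1, f2, g1, g2, t1, t2, h1, h2, h0, h3, h4, h5⟩ := allV_spec C
    have hf : ∀ p q, btV false C p q = p := by cases C <;> intros <;> rfl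
    refine ⟨_, _, _, _, _, _, _, _, _, _, fun k => by rw [allV, h1, frc_eq], ?_, ?_, ?_, ?_, ?_⟩
    · intro lv p q k
      simp only [bkV, h2, force_eq]
      congr 1 <;> simp only [spP, spQ] <;> ring
    · intro p q
      simp only [btV, cond_true, h2, spP, spQ]; ring
    · intro lv p q
      simp only [fwV, h0, h3, force_eq, spP, spQ]; ring
    · intro lv p q
      simp only [fwV, hf, h4, force_eq, spP, spQ]; ring
    · intro lv p q
      rw [tot, h5, h4]
      simp only [List.length_append, spP, spQ]; ring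

lemma evalV (lv : List V) (C : Ch V) (p q : ℕ) :
    fwV true lv C p q + tot (fun l C => fwV false l C p q) p lv C =
      allV C fun _ _ _ _ f1 f2 _ _ t1 t2 =>
        spP lv.length p q * f1 + spQ lv.length q * f2 + (lv.length * p + (p * t1 + q * t2)) := by
  obtain ⟨n1, n2, c, s, f1, f2, g1, g2, t1, t2, h1, h2, h0, h3, h4, h5⟩ := allV_spec C
  rw [h1, h3, h5]

end Pool.Agent.H.MP_589357_co
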