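import Mathlib
import Pool.Agent.H.MP_589357_co.L

namespace Pool.Agent.H.MP_589357_co

def l0 : List (Fin 543) := [1, 2, 3, 4, 5, 6, 7, 8, 9, 10]

def c1 : Ch (Fin 543) := [
  (12, [], none), (13, [], none), (14, [], none), (15, [], none), (16, [], none), (17, [], none),
  (18, [], none), (19, [], none), (20, [], none), (21, [], none), (22, [], none), (23, [], none),
  (24, [], none), (25, [], none), (26, [], none), (27, [], none), (28, [], none), (29, [], none),
  (30, [], none), (31, [], none), (32, [], none), (33, [], none), (34, [], none), (35, [], none),
  (36, [], none), (37, [], none), (38, [], none), (39, [], none), (40, [], none), (41, [], none),
  (42, [], none), (43, [], none), (44, [], none), (45, [], none), (46, [], none), (47, [], none),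
  (48, [], some 49), (50, [], none), (51, [], none), (52, [], none), (53, [], none),
  (54, [], none), (55, [], none), (56, [], none), (57, [], none), (58, [], none), (59, [], none),
  (60, [], none), (61, [], none), (62, [], none), (63, [], none), (64, [], none), (65, [], none),
  (66, [], none), (67, [], none), (68, [], none), (69, [], none), (70, [], none), (71, [], none),
  (72, [], none), (73, [], none), (74, [], none), (75, [], none), (76, [], none), (77, [], none),
  (78, [], none), (79, [], none), (80, [], none), (81, [], none), (82, [], none), (83, [], none),
  (84, [], none), (85, [], none), (86, [], none), (87, [], none), (88, [], none), (89, [], none),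
  (90, [], none), (91, [], none), (92, [], none), (93, [], some 94), (95, [], none),
  (96, [], none), (97, [], none), (98, [], none), (99, [], none), (100, [], none),
  (101, [], none), (102, [], none), (103, [], none), (104, [], none), (105, [], none),
  (106, [], none), (107, [], none), (108, [], none), (109, [], none), (110, [], none),
  (111, [], none), (112, [], none), (113, [], none), (114, [], none), (115, [], none),
  (116, [], none), (117, [], none), (118, [], none), (119, [], none), (120, [], none),
  (121, [], none), (122, [], none), (123, [], none), (124, [], none), (125, [], none),
  (126, [], none), (127, [], none), (128, [], none), (129, [], none), (130, [], none),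
  (131, [], none), (132, [], none), (133, [], none), (134, [], none), (135, [], none),
  (136, [], none), (137, [], none), (138, [], none), (139, [], some 140), (141, [], none),
  (142, [], none), (143, [], none), (144, [], none), (145, [], none), (146, [], none),
  (147, [], none), (148, [], none), (149, [], none), (150, [], none), (151, [], none),
  (152, [], none), (153, [], none), (154, [], none), (155, [], none), (156, [], none),
  (157, [], none), (158, [], none), (159, [], none), (160, [], none), (161, [], none),
  (162, [], none), (163, [], none), (164, [], none), (165, [], none), (166, [], none),
  (167, [], none), (168, [], none), (169, [], none), (170, [], none), (171, [], none),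
  (172, [], none), (173, [], none), (174, [], none), (175, [], none), (176, [], none),
  (177, [], none), (178, [179, 180, 181, 182, 183, 184, 185, 186, 187, 188], none),
  (189, [], none), (190, [], none), (191, [], none), (192, [], none), (193, [], none),
  (194, [], none), (195, [], none), (196, [], none), (197, [], none), (198, [], none),
  (199, [], none), (200, [], none), (201, [], none), (202, [], none), (203, [], none),
  (204, [], none), (205, [], none), (206, [], none), (207, [], none), (208, [], none),
  (209, [], none), (210, [], none), (211, [], none), (212, [], none), (213, [], none),
  (214, [], none), (215, [], none), (216, [], none), (217, [], none), (218, [], none),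
  (219, [], none), (220, [], none), (221, [], none), (222, [], none), (223, [], none),
  (224, [], none), (225, [], none), (226, [], none), (227, [], none), (228, [], none),
  (229, [], none), (230, [], none), (231, [], none), (232, [], none), (233, [], none),
  (234, [], none), (235, [], none), (236, [], none), (237, [], none), (238, [], none),
  (239, [], none), (240, [], none), (241, [], none), (242, [], none), (243, [], none),
  (244, [], none), (245, [], none), (246, [], none), (247, [], none), (248, [], none),
  (249, [], none), (250, [], none), (251, [], none), (252, [], none), (253, [], none),
  (254, [], none), (255, [], none), (256, [], none), (257, [], none), (258, [], none),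
  (259, [], none), (260, [], none), (261, [], none), (262, [], none), (263, [], none),
  (264, [], none), (265, [], none), (266, [], none), (267, [], none), (268, [], none),
  (269, [], none), (270, [], none), (271, [], none), (272, [], none), (273, [], none),
  (274, [], none), (275, [], none), (276, [], none), (277, [], none), (278, [], none),
  (279, [], none), (280, [], none), (281, [], none), (282, [], none), (283, [], none),
  (284, [], none), (285, [], none), (286, [], none), (287, [], none), (288, [], none),
  (289, [], none), (290, [], none), (291, [], none), (292, [], none), (293, [], none),
  (294, [], none), (295, [], none), (296, [], none), (297, [], none), (298, [], none),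
  (299, [], none), (300, [], none), (301, [], none), (302, [], none), (303, [], none),
  (304, [], none), (305, [], none), (306, [], none), (307, [], none), (308, [], none),
  (309, [], none), (310, [], none), (311, [], none), (312, [], none), (313, [], none),
  (314, [], none), (315, [], none), (316, [], none), (317, [], none), (318, [], none),
  (319, [], none), (320, [], none), (321, [], none), (322, [], none), (323, [], none),
  (324, [], none), (325, [], none), (326, [], none), (327, [], none), (328, [], none),
  (329, [], none), (330, [], none), (331, [], none), (332, [], none), (333, [], none),
  (334, [], none), (335, [], none), (336, [], none), (337, [], none), (338, [], none),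
  (339, [], none), (340, [], none), (341, [], none), (342, [], none), (343, [], none),
  (344, [], none), (345, [], none), (346, [], none), (347, [], none), (348, [], none),
  (349, [], none), (350, [], none), (351, [], none), (352, [], none), (353, [], none),
  (354, [], none), (355, [], none), (356, [], none), (357, [], none), (358, [], none),
  (359, [], none), (360, [], none), (361, [], none), (362, [], none), (363, [], none),
  (364, [], none), (365, [], none), (366, [], none), (367, [], none), (368, [], none),
  (369, [], none), (370, [], none), (371, [], none), (372, [], none), (373, [], none),
  (374, [], none), (375, [], none), (376, [], none), (377, [], none), (378, [], none),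
  (379, [], none), (380, [], none), (381, [], none), (382, [], none), (383, [], none),
  (384, [], none), (385, [], none), (386, [], none), (387, [], none), (388, [], none),
  (389, [], none), (390, [], none), (391, [], none), (392, [], none), (393, [], none),
  (394, [], none), (395, [], none), (396, [], none), (397, [], none), (398, [], none),
  (399, [], none), (400, [], none), (401, [], none), (402, [], none), (403, [], none),
  (404, [], none), (405, [], none), (406, [], none), (407, [], none), (408, [], none),
  (409, [], none), (410, [], none), (411, [], none), (412, [], none), (413, [], none),
  (414, [], none), (415, [], none), (416, [], none), (417, [], none), (418, [], none),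
  (419, [], none), (420, [], none), (421, [], none), (422, [], none), (423, [], none),
  (424, [], none), (425, [], none), (426, [], none), (427, [], none), (428, [], none),
  (429, [], none), (430, [], none), (431, [], none), (432, [], none), (433, [], none),
  (434, [], none), (435, [], none), (436, [], none), (437, [], none), (438, [], none),
  (439, [], none), (440, [], none), (441, [], none), (442, [], none), (443, [], none),
  (444, [], none), (445, [], none), (446, [], none), (447, [], none), (448, [], none),
  (449, [], none), (450, [], none), (451, [], none), (452, [], none), (453, [], none),
  (454, [], none), (455, [], none), (456, [], none), (457, [], none), (458, [], none),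
  (459, [], none), (460, [], none), (461, [], none), (462, [], none), (463, [], none),
  (464, [], none), (465, [], none), (466, [], none), (467, [], none), (468, [], none),
  (469, [], none), (470, [], none), (471, [], none), (472, [], none), (473, [], none),
  (474, [], none), (475, [], none), (476, [], none), (477, [], none), (478, [], none),
  (479, [], none), (480, [], none), (481, [], none), (482, [], none), (483, [], none),
  (484, [], none), (485, [], none), (486, [], none), (487, [], none), (488, [], none),
  (489, [], none), (490, [], none), (491, [], none), (492, [], none), (493, [], none),
  (494, [], none), (495, [], none), (496, [], none), (497, [], none), (498, [], none),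
  (499, [], none), (500, [], none), (501, [], none), (502, [], none), (503, [], none),
  (504, [], none), (505, [], none), (506, [], none), (507, [], none), (508, [], none),
  (509, [], none), (510, [], none), (511, [], none), (512, [], none), (513, [], none),
  (514, [], none), (515, [], none), (516, [], none), (517, [], none), (518, [], none),
  (519, [], none), (520, [], none), (521, [], none), (522, [], none), (523, [], none),
  (524, [], none), (525, [], none), (526, [], none), (527, [], none), (528, [], none),
  (529, [], none), (530, [], none), (531, [], none), (532, [], none), (533, [], none),
  (534, [], none), (535, [], none), (536, [], none), (537, [], none), (538, [], none),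
  (539, [], none), (540, [], none), (541, [], none), (542, [], none)]

def c0 : Ch (Fin 543) := (11, [], none) :: c1

theorem names' : ((0 : Fin 543) :: nm l0 c0).map Fin.val = List.range 543 := by decide +kernel

theorem names : (0 : Fin 543) :: nm l0 c0 = List.finRange 543 := by
  apply List.map_injective_iff.2 Fin.val_injective
  rw [names', List.map_coe_finRange_eq_range]

theorem noloop : ∀ e ∈ ed [0] 0 l0 c0, e.1 ≠ e.2 := by
  have : (ed [0] 0 l0 c0).all (fun e => !(Nat.beq e.1.val e.2.val)) = true := by decide +kernel
  intro e he h
  have := List.all_eq_true.1 this e he
  simp [h] at this

theorem nocl : ((11 : Fin 543), (0 : Fin 543)) ∉ ed [0] 11 [] c1 := by decide +kernel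

theorem t0 : fw true l0 c0 1 0 + tot (fun l C => fw false l C 1 0) 1 l0 c0 = 4581575234178 := by
  rw [evalT]; decide +kernel

theorem t1 : fw true l0 c0 1 1 + tot (fun l C => fw false l C 1 1) 1 l0 c0 = 1929175588667854 := by
  rw [evalT]; decide +kernel

theorem s0 : fwV true l0 c0 1 0 + tot (fun l C => fwV false l C 1 0) 1 l0 c0 = 587429870636 := by
  rw [evalV]; decide +kernel

theorem s1 : fwV true l0 c0 1 1 + tot (fun l C => fwV false l C 1 1) 1 l0 c0 = 247362885531886 := by
  rw [evalV]; decide +kernel

end Pool.Agent.H.MP_589357_co
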